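import Mathlib
import Pool.Agent.R863.Stub.Curve

/-!
# A totally real plane curve with stubborn forms exactly in the degrees `2, 6, 10, …`

Let `X ⊂ ℙ²` be the image of `ℙ¹` under `(x² + 5/2 : x³ + 3x : x⁴ - 17/2)`. It is a quartic curve
with two complex conjugate nodes (at the parameters `± i`, `± 2i`) and an isolated real double point
(at the parameters `± i √3`). The form `7 x₀² + 2 x₀ x₂ - 2 x₁²` of degree two is the constant `5/4`
in the parameter, and its odd powers are stubborn because every form of odd degree changes its sign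
when one passes from the parameter `i` to the parameter `2i`. There are no stubborn forms of degree
`4, 8, 12, …`.
-/

set_option autoImplicit false

open MvPolynomial

namespace Pool.Agent.Results.MP_9ca6a9_ag.OddDegrees

attribute [local instance] MvPolynomial.gradedAlgebra

section definitions

variable {n : ℕ} (I : Ideal (MvPolynomial (Fin (n + 1)) ℝ))

/-- The real points of the affine cone over the variety `X ⊂ ℙⁿ` with the ideal `I`. -/
def realCone : Set (Fin (n + 1) → ℝ) := {p | ∀ f ∈ I, eval p f = 0}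

/-- The complex points of the affine cone over `X`. -/
def complexCone : Set (Fin (n + 1) → ℂ) := {p | ∀ f ∈ I, aeval p f = 0}

/-- `I` is the homogeneous ideal of a totally real variety `X ⊂ ℙⁿ`: it is a homogeneous radical
ideal, and every complex polynomial which vanishes at the real points of the cone over `X` vanishes
at all its complex points. -/
structure TotallyReal : Prop where
  homogeneous : I.IsHomogeneous (homogeneousSubmodule (Fin (n + 1)) ℝ)
  radical : I.IsRadical
  dense : ∀ F : MvPolynomial (Fin (n + 1)) ℂ,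
    (∀ p ∈ realCone I, eval (fun i => (p i : ℂ)) F = 0) → ∀ p ∈ complexCone I, eval p F = 0

/-- The homogeneous coordinate ring `ℝ[X]`. -/
abbrev Coord : Type := MvPolynomial (Fin (n + 1)) ℝ ⧸ I

/-- The graded piece `ℝ[X]_m`. -/
noncomputable def gr (m : ℕ) : Submodule ℝ (Coord I) :=
  (homogeneousSubmodule (Fin (n + 1)) ℝ m).map (Ideal.Quotient.mkₐ ℝ I).toLinearMap

/-- The value of an element of `ℝ[X]` at a real point of the cone. -/
noncomputable def ev (p : realCone I) : Coord I →ₐ[ℝ] ℝ :=
  Ideal.Quotient.liftₐ I (aeval p.1) fun f hf => p.2 f hf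

/-- `F` is a sum of squares of elements of `ℝ[X]_m`. -/
def IsSumSq (m : ℕ) (F : Coord I) : Prop :=
  ∃ (r : ℕ) (G : Fin r → Coord I), (∀ i, G i ∈ gr I m) ∧ F = ∑ i, G i ^ 2

/-- `F ∈ ℝ[X]_{2k}` is nonnegative on `X`, and no odd power `F ^ m` is a sum of squares of elements
of `ℝ[X]_{km}`. -/
def Stubborn (k : ℕ) (F : Coord I) : Prop :=
  F ∈ gr I (2 * k) ∧ (∀ p : realCone I, 0 ≤ ev I p F) ∧
    ∀ m : ℕ, Odd m → ¬ IsSumSq I (k * m) (F ^ m)

/-- `2k` is a stubborn degree of `X`. -/
def StubbornDegree (k : ℕ) : Prop := ∃ F : Coord I, Stubborn I k F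

end definitions

open Pool.Agent.R863.Stub

/-- the parametrization of the cone -/
noncomputable def par : MvPolynomial (Fin 3) ℝ →ₐ[ℝ] Polynomial (Polynomial ℝ) :=
  aeval fun i => Polynomial.C (v i) * Polynomial.X

/-- the ideal of the curve -/
noncomputable def curve : Ideal (MvPolynomial (Fin (2 + 1)) ℝ) := RingHom.ker par

theorem par_homog {m : ℕ} {P : MvPolynomial (Fin 3) ℝ} (hP : P.IsHomogeneous m) :
    par P = Polynomial.C (pull P) * Polynomial.X ^ m := by
  rw [par, aeval_mul_const hP]
  congr 1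
  have h : (aeval (fun i => Polynomial.C (v i)) : MvPolynomial (Fin 3) ℝ →ₐ[ℝ] _) =
      (Polynomial.CAlgHom (R := ℝ) (A := Polynomial ℝ)).comp pull := by
    refine MvPolynomial.algHom_ext fun i => ?_
    rw [AlgHom.comp_apply, aeval_X, aeval_X]
    rfl
  rw [h]
  rfl

theorem mem_curve_homog {m : ℕ} {P : MvPolynomial (Fin 3) ℝ} (hP : P.IsHomogeneous m) :
    P ∈ curve ↔ pull P = 0 := by
  rw [curve, RingHom.mem_ker, par_homog hP]
  constructor
  · intro h
    have h1 := congrArg (fun Q => Polynomial.coeff Q m) h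
    simpa only [Polynomial.coeff_C_mul, Polynomial.coeff_X_pow, if_true, mul_one,
      Polynomial.coeff_zero] using h1
  · intro h
    rw [h, map_zero, zero_mul]

theorem par_eq (P : MvPolynomial (Fin 3) ℝ) : par P = ∑ m ∈ Finset.range (P.totalDegree + 1),
    Polynomial.C (pull (homogeneousComponent m P)) * Polynomial.X ^ m := by
  conv_lhs => rw [← sum_homogeneousComponent P]
  rw [map_sum]
  exact Finset.sum_congr rfl fun m _ => par_homog (homogeneousComponent_isHomogeneous m P)

theorem pull_component {P : MvPolynomial (Fin 3) ℝ} (hP : P ∈ curve) (m : ℕ) :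
    pull (homogeneousComponent m P) = 0 := by
  rw [curve, RingHom.mem_ker, par_eq] at hP
  by_cases hm : m < P.totalDegree + 1
  · have h1 := congrArg (fun Q => Polynomial.coeff Q m) hP
    simp only [Polynomial.finsetSum_coeff, Polynomial.coeff_C_mul, Polynomial.coeff_X_pow,
      Polynomial.coeff_zero, mul_ite, mul_one, mul_zero] at h1
    rw [Finset.sum_eq_single m] at h1
    · simpa using h1
    · intro j _ hj
      rw [if_neg hj.symm]
    · intro h
      exact absurd (Finset.mem_range.2 hm) h
  · rw [homogeneousComponent_eq_zero _ _ (by omega), map_zero]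

theorem curve_isHomogeneous : curve.IsHomogeneous (homogeneousSubmodule (Fin (2 + 1)) ℝ) := by
  intro i P hP
  have h1 : (DirectSum.decompose (homogeneousSubmodule (Fin (2 + 1)) ℝ) P i :
      MvPolynomial (Fin (2 + 1)) ℝ) = homogeneousComponent i P :=
    decomposition.decompose'_apply P i
  rw [h1]
  exact (mem_curve_homog (homogeneousComponent_isHomogeneous i P)).2 (pull_component hP i)

theorem curve_isPrime : curve.IsPrime := RingHom.ker_isPrime _

theorem curve_le {P : MvPolynomial (Fin 3) ℝ} (hP : P ∈ curve) : pull P = 0 := by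
  conv_lhs => rw [← sum_homogeneousComponent P]
  rw [map_sum]
  exact Finset.sum_eq_zero fun m _ => pull_component hP m

theorem aeval_vz {P : MvPolynomial (Fin 3) ℝ} (z u : ℂ) :
    aeval (fun i => vz z i * u) P = ∑ m ∈ Finset.range (P.totalDegree + 1),
      (toC (pull (homogeneousComponent m P))).eval z * u ^ m := by
  conv_lhs => rw [← sum_homogeneousComponent P]
  rw [map_sum]
  refine Finset.sum_congr rfl fun m _ => ?_
  rw [aeval_mul_const (homogeneousComponent_isHomogeneous m P), eval_pull]

theorem aeval_vz_mem {P : MvPolynomial (Fin 3) ℝ} (hP : P ∈ curve) (z u : ℂ) :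
    aeval (fun i => vz z i * u) P = 0 := by
  rw [aeval_vz]
  refine Finset.sum_eq_zero fun m _ => ?_
  rw [pull_component hP, toC, Polynomial.map_zero, Polynomial.eval_zero, zero_mul]

theorem mem_realCone (x u : ℝ) : (fun i => (v i).eval x * u) ∈ realCone curve := by
  intro P hP
  have h1 := aeval_vz_mem hP (x : ℂ) (u : ℂ)
  have h2 : (fun i => vz (x : ℂ) i * (u : ℂ)) = fun i => (((v i).eval x * u : ℝ) : ℂ) := by
    funext i
    rw [vz, eval_toC]
    push_cast
    rfl
  rw [h2, aeval_ofReal] at h1
  exact_mod_cast h1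

theorem acnode_mem : (![-1 / 2, 0, 1 / 2] : Fin 3 → ℝ) ∈ realCone curve := by
  intro P hP
  have h1 := aeval_vz_mem hP pp 1
  simp only [mul_one] at h1
  rw [show (fun i => vz pp i) = vz pp from rfl, vz_pp, aeval_ofReal] at h1
  exact_mod_cast h1

theorem mem_curve_of_vanish {P : MvPolynomial (Fin 3) ℝ} (h : ∀ p ∈ realCone curve, eval p P = 0) :
    P ∈ curve := by
  have h1 : ∀ m, pull (homogeneousComponent m P) = 0 := by
    intro m
    by_cases hm : m < P.totalDegree + 1
    · apply Polynomial.funext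
      intro x
      have h2 : (∑ m ∈ Finset.range (P.totalDegree + 1),
          Polynomial.C ((pull (homogeneousComponent m P)).eval x) * Polynomial.X ^ m :
            Polynomial ℝ) = 0 := by
        apply Polynomial.funext
        intro u
        have h3 := h _ (mem_realCone x u)
        have h4 := aeval_vz (P := P) (x : ℂ) (u : ℂ)
        have h5 : (fun i => vz (x : ℂ) i * (u : ℂ)) = fun i => (((v i).eval x * u : ℝ) : ℂ) := by
          funext i
          rw [vz, eval_toC]
          push_cast
          rfl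
        rw [h5, aeval_ofReal, h3] at h4
        rw [Polynomial.eval_zero, Polynomial.eval_finsetSum]
        simp only [Polynomial.eval_mul, Polynomial.eval_C, Polynomial.eval_pow, Polynomial.eval_X]
        simp only [eval_toC] at h4
        exact_mod_cast h4.symm
      have h3 := congrArg (fun Q => Polynomial.coeff Q m) h2
      simp only [Polynomial.finsetSum_coeff, Polynomial.coeff_C_mul, Polynomial.coeff_X_pow,
        Polynomial.coeff_zero, mul_ite, mul_one, mul_zero] at h3
      rw [Finset.sum_eq_single m] at h3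
      · simpa using h3
      · intro j _ hj
        rw [if_neg hj.symm]
      · intro h
        exact absurd (Finset.mem_range.2 hm) h
    · rw [homogeneousComponent_eq_zero _ _ (by omega), map_zero]
  rw [curve, RingHom.mem_ker, par_eq]
  refine Finset.sum_eq_zero fun m _ => ?_
  rw [h1, map_zero, zero_mul]

theorem exists_re_im_mv (F : MvPolynomial (Fin 3) ℂ) : ∃ P Q : MvPolynomial (Fin 3) ℝ,
    F = map (algebraMap ℝ ℂ) P + C Complex.I * map (algebraMap ℝ ℂ) Q := by
  induction F using MvPolynomial.induction_on with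
  | C a =>
    refine ⟨C a.re, C a.im, ?_⟩
    rw [map_C, map_C, ← C_mul, ← C_add]
    congr 1
    rw [mul_comm]
    exact (Complex.re_add_im a).symm
  | add F G hF hG =>
    obtain ⟨P1, Q1, h1⟩ := hF
    obtain ⟨P2, Q2, h2⟩ := hG
    refine ⟨P1 + P2, Q1 + Q2, ?_⟩
    rw [map_add, map_add, h1, h2]
    ring
  | mul_X F i hF =>
    obtain ⟨P1, Q1, h1⟩ := hF
    refine ⟨P1 * X i, Q1 * X i, ?_⟩
    rw [map_mul, map_mul, map_X, h1]
    ring

theorem totallyReal_curve : TotallyReal curve where
  homogeneous := curve_isHomogeneous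
  radical := curve_isPrime.isRadical
  dense := by
    intro F hF p hp
    obtain ⟨P, Q, rfl⟩ := exists_re_im_mv F
    have h : ∀ q ∈ realCone curve, eval q P = 0 ∧ eval q Q = 0 := by
      intro q hq
      have h1 := hF q hq
      have h2 : ∀ R : MvPolynomial (Fin 3) ℝ, eval (fun i => ((q i : ℝ) : ℂ))
          (map (algebraMap ℝ ℂ) R) = ((eval q R : ℝ) : ℂ) := by
        intro R
        rw [← aeval_ofReal, eval_map]
        rfl
      rw [map_add, map_mul, eval_C, h2, h2] at h1
      have h3 := congrArg Complex.re h1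
      have h4 := congrArg Complex.im h1
      simp at h3 h4
      exact ⟨h3, h4⟩
    have hP := hp P (mem_curve_of_vanish fun q hq => (h q hq).1)
    have hQ := hp Q (mem_curve_of_vanish fun q hq => (h q hq).2)
    rw [aeval_def, ← eval_map] at hP hQ
    rw [map_add, map_mul, hP, hQ, mul_zero, add_zero]

/-- forms on the curve as polynomials in the parameter -/
noncomputable def desc : Coord curve →ₐ[ℝ] Polynomial ℝ :=
  Ideal.Quotient.liftₐ curve pull fun _ hf => curve_le hf

theorem desc_mk (P : MvPolynomial (Fin 3) ℝ) : desc (Ideal.Quotient.mkₐ ℝ curve P) = pull P := rfl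

theorem exists_rep {m : ℕ} {F : Coord curve} (hF : F ∈ gr curve m) :
    ∃ P : MvPolynomial (Fin 3) ℝ, P.IsHomogeneous m ∧ F = Ideal.Quotient.mkₐ ℝ curve P := by
  obtain ⟨P, hP, rfl⟩ := hF
  exact ⟨P, hP, rfl⟩

theorem mk_mem {m : ℕ} {P : MvPolynomial (Fin 3) ℝ} (hP : P.IsHomogeneous m) :
    Ideal.Quotient.mkₐ ℝ curve P ∈ gr curve m := ⟨P, hP, rfl⟩

theorem mk_eq {m : ℕ} {P Q : MvPolynomial (Fin 3) ℝ} (hP : P.IsHomogeneous m)
    (hQ : Q.IsHomogeneous m) (h : pull P = pull Q) :
    Ideal.Quotient.mkₐ ℝ curve P = Ideal.Quotient.mkₐ ℝ curve Q := by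
  refine Ideal.Quotient.eq.2 ((mem_curve_homog (hP.sub hQ)).2 ?_)
  rw [map_sub, h, sub_self]

/-- the equation of the curve -/
theorem quartic_mem : C 20 * F₀ * (X 2 + C 5 * X 0) ^ 2 - (C 5 * X 0 ^ 2 - C 9 * F₀) ^ 2 ∈
    curve := by
  have hX := fun i : Fin 3 => isHomogeneous_X ℝ i
  have h1 : (C 20 * F₀ * (X 2 + C 5 * X 0) ^ 2).IsHomogeneous 4 :=
    (IsHomogeneous.C_mul homog_F₀ 20).mul (((hX 2).add (IsHomogeneous.C_mul (hX 0) 5)).pow 2)
  have h2 : ((C 5 * X 0 ^ 2 - C 9 * F₀) ^ 2).IsHomogeneous 4 :=
    ((IsHomogeneous.C_mul ((hX 0).pow 2) 5).sub (IsHomogeneous.C_mul homog_F₀ 9)).pow 2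
  rw [mem_curve_homog (h1.sub h2)]
  simp only [map_sub, map_mul, map_pow, map_add, pull_F₀, algHom_C, aeval_X, v,
    Matrix.cons_val_zero, Matrix.cons_val]
  have e : ∀ c : ℝ, (algebraMap ℝ (Polynomial ℝ)) c = Polynomial.C c := fun _ => rfl
  rw [e, e, e]
  apply Polynomial.funext
  intro x
  simp only [Polynomial.eval_sub, Polynomial.eval_add, Polynomial.eval_mul, Polynomial.eval_pow,
    Polynomial.eval_C, Polynomial.eval_X, Polynomial.eval_zero]
  ring

theorem F₀_nonneg {p : Fin 3 → ℝ} (hp : p ∈ realCone curve) : 0 ≤ eval p F₀ := by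
  have h := hp _ quartic_mem
  simp only [map_sub, map_mul, map_pow, map_add, eval_C, eval_X] at h
  by_cases h1 : p 2 + 5 * p 0 = 0
  · rw [h1] at h
    have h2 : 5 * p 0 ^ 2 - 9 * eval p F₀ = 0 := by
      have : (5 * p 0 ^ 2 - 9 * eval p F₀) ^ 2 = 0 := by linarith
      exact pow_eq_zero_iff two_ne_zero |>.1 this
    nlinarith [sq_nonneg (p 0)]
  · have h2 : 0 < (p 2 + 5 * p 0) ^ 2 := by positivity
    have h3 : 0 ≤ eval p F₀ * (p 2 + 5 * p 0) ^ 2 := by
      nlinarith [sq_nonneg (5 * p 0 ^ 2 - 9 * eval p F₀)]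
    exact nonneg_of_mul_nonneg_left h3 h2

theorem stubborn_of_odd {k : ℕ} (hk : Odd k) : StubbornDegree curve k := by
  refine ⟨Ideal.Quotient.mkₐ ℝ curve (F₀ ^ k), mk_mem ?_, ?_, ?_⟩
  · exact homog_F₀.pow k
  · intro p
    change 0 ≤ aeval p.1 (F₀ ^ k)
    rw [map_pow, aeval_eq_eval]
    exact pow_nonneg (F₀_nonneg p.2) k
  · rintro m hm ⟨r, G, hG, hsum⟩
    have h1 := congrArg desc hsum
    rw [map_pow, desc_mk, map_pow, pull_F₀, map_sum] at h1
    have hkm : Odd (k * m) := hk.mul hm
    have h2 : ∀ i, desc (G i) = 0 := by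
      intro i
      have hle : ∀ x : ℝ, (desc (G i)).eval x ^ 2 ≤ ((5 / 4 : ℝ) ^ k) ^ m := by
        intro x
        have h3 := congrArg (Polynomial.eval x) h1
        rw [Polynomial.eval_finsetSum] at h3
        simp only [Polynomial.eval_pow, Polynomial.eval_C, map_pow] at h3
        rw [h3]
        exact Finset.single_le_sum (f := fun j => (desc (G j)).eval x ^ 2)
          (fun j _ => sq_nonneg _) (Finset.mem_univ i)
      have hdeg : (desc (G i)).degree ≤ 0 := by
        rw [← Polynomial.isBoundedUnder_abs_atTop_iff]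
        refine ⟨((5 / 4 : ℝ) ^ k) ^ m + 1, ?_⟩
        rw [Filter.eventually_map]
        refine Filter.Eventually.of_forall fun x => ?_
        have h4 := hle x
        have h5 : |(desc (G i)).eval x| ^ 2 ≤ ((5 / 4 : ℝ) ^ k) ^ m := by rwa [sq_abs]
        nlinarith [abs_nonneg ((desc (G i)).eval x)]
      obtain ⟨P, hP, hGP⟩ := exists_rep (hG i)
      have h6 : desc (G i) = Polynomial.C ((desc (G i)).coeff 0) :=
        Polynomial.eq_C_of_degree_le_zero hdeg
      have h7 : (toC (desc (G i))).eval (2 * Complex.I) = -(toC (desc (G i))).eval Complex.I := by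
        rw [hGP, desc_mk, eval_pull, eval_pull, vz_two_I, aeval_mul_const hP, hkm.neg_one_pow]
        ring
      rw [h6] at h7
      simp only [toC, Polynomial.map_C, Polynomial.eval_C] at h7
      have h8 : (desc (G i)).coeff 0 = 0 := by
        have h9 := congrArg Complex.re h7
        simp at h9
        linarith
      rw [h6, h8, map_zero]
    simp only [map_pow, h2] at h1
    have h3 := congrArg (Polynomial.eval 0) h1
    simp at h3

theorem aeval_pull_real (P : MvPolynomial (Fin 3) ℝ) (x : ℝ) :
    (pull P).eval x = eval (fun i => (v i).eval x * 1) P := by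
  have h : ((Polynomial.aeval x).comp pull : MvPolynomial (Fin 3) ℝ →ₐ[ℝ] ℝ) =
      aeval (fun i => (v i).eval x * 1) := by
    refine MvPolynomial.algHom_ext fun i => ?_
    rw [AlgHom.comp_apply, aeval_X, aeval_X, mul_one]
    rfl
  have h2 := congrArg (fun φ => φ P) h
  rw [← aeval_eq_eval]
  exact h2

theorem norm_prod_le (s : Multiset ℝ) :
    ‖(s.map fun a : ℝ => Complex.I - (a : ℂ)).prod‖ ≤
      ‖(s.map fun a : ℝ => 2 * Complex.I - (a : ℂ)).prod‖ ∧
    (s ≠ 0 → ‖(s.map fun a : ℝ => Complex.I - (a : ℂ)).prod‖ <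
      ‖(s.map fun a : ℝ => 2 * Complex.I - (a : ℂ)).prod‖) := by
  have h1 : ∀ a : ℝ, ‖Complex.I - (a : ℂ)‖ < ‖2 * Complex.I - (a : ℂ)‖ := by
    intro a
    rw [← sq_lt_sq₀ (norm_nonneg _) (norm_nonneg _), Complex.sq_norm, Complex.sq_norm,
      Complex.normSq_apply, Complex.normSq_apply]
    simp
    norm_num
  induction s using Multiset.induction_on with
  | empty => simp
  | cons a s ih =>
    have h2 : 0 < ‖(s.map fun a : ℝ => 2 * Complex.I - (a : ℂ)).prod‖ := by
      rw [norm_pos_iff]
      intro h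
      rw [Multiset.prod_eq_zero_iff, Multiset.mem_map] at h
      obtain ⟨b, _, hb⟩ := h
      have := congrArg Complex.im hb
      simp at this
    have h3 : ‖((a ::ₘ s).map fun a : ℝ => Complex.I - (a : ℂ)).prod‖ <
        ‖((a ::ₘ s).map fun a : ℝ => 2 * Complex.I - (a : ℂ)).prod‖ := by
      rw [Multiset.map_cons, Multiset.map_cons, Multiset.prod_cons, Multiset.prod_cons, norm_mul,
        norm_mul]
      calc ‖Complex.I - (a : ℂ)‖ * ‖(s.map fun a : ℝ => Complex.I - (a : ℂ)).prod‖
          ≤ ‖Complex.I - (a : ℂ)‖ * ‖(s.map fun a : ℝ => 2 * Complex.I - (a : ℂ)).prod‖ := by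
            gcongr
            exact ih.1
        _ < ‖2 * Complex.I - (a : ℂ)‖ * ‖(s.map fun a : ℝ => 2 * Complex.I - (a : ℂ)).prod‖ := by
            gcongr
            exact h1 a
    exact ⟨h3.le, fun _ => h3⟩

theorem eval_toC_prod (d : ℝ) (s : Multiset ℝ) (z : ℂ) :
    (toC (Polynomial.C d * (s.map fun a => Polynomial.X - Polynomial.C a).prod)).eval z =
      d * (s.map fun a : ℝ => z - (a : ℂ)).prod := by
  rw [toC, Polynomial.map_mul, Polynomial.map_C, Polynomial.map_multiset_prod, Multiset.map_map,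
    Polynomial.eval_mul, Polynomial.eval_C, Polynomial.eval_multiset_prod, Multiset.map_map]
  congr 2
  refine Multiset.map_congr rfl fun a _ => ?_
  simp

/-- the three parameters -/
noncomputable def pts : Fin 3 → ℂ := ![Complex.I, 2 * Complex.I, pp]

theorem not_stubborn_of_even {k : ℕ} (hk : Even k) : ¬ StubbornDegree curve k := by
  rintro ⟨F, hF, hpos, hstub⟩
  obtain ⟨P, hP, rfl⟩ := exists_rep hF
  obtain ⟨k', hk'⟩ := hk
  have hcond := cond_pull hP
  have hnn : ∀ x : ℝ, 0 ≤ (pull P).eval x := by
    intro x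
    have h1 := hpos ⟨_, mem_realCone x 1⟩
    change 0 ≤ aeval _ P at h1
    rw [aeval_eq_eval] at h1
    rw [aeval_pull_real]
    exact h1
  obtain ⟨c, hc, hcp⟩ : ∃ c : ℝ, 0 ≤ c ∧ (toC (pull P)).eval pp = (c : ℂ) := by
    have h1 := hpos ⟨_, acnode_mem⟩
    change 0 ≤ aeval _ P at h1
    rw [aeval_eq_eval] at h1
    exact ⟨_, h1, by rw [eval_pull, vz_pp, aeval_ofReal]⟩
  by_cases h0 : pull P = 0
  · refine hstub 1 odd_one ⟨0, fun i => i.elim0, fun i => i.elim0, ?_⟩
    have h1 : Ideal.Quotient.mkₐ ℝ curve P = Ideal.Quotient.mkₐ ℝ curve 0 :=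
      mk_eq hP (isHomogeneous_zero _ _ _) (by rw [h0, map_zero])
    rw [h1, map_zero]
    simp
  rcases dichotomy h0 hnn with ⟨ζ, f2, hζ, hf⟩ | ⟨d, s, hf⟩
  · -- a nonreal root
    have hdeg : (pull P).natDegree ≤ 2 * (4 * k) := by
      refine (natDegree_pull hP).trans (le_of_eq ?_)
      ring
    obtain ⟨w, hw⟩ := IsAlgClosed.exists_pow_nat_eq ((toC (pull P)).eval Complex.I)
      (n := 2) (by norm_num)
    have hinj : Function.Injective pts := by
      have hs1 : Real.sqrt 3 ≠ 1 := by
        intro h
        have := Real.sq_sqrt (show (0 : ℝ) ≤ 3 by norm_num)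
        rw [h] at this
        norm_num at this
      have hs2 : Real.sqrt 3 ≠ 2 := by
        intro h
        have := Real.sq_sqrt (show (0 : ℝ) ≤ 3 by norm_num)
        rw [h] at this
        norm_num at this
      intro i j hij
      have h1 := congrArg Complex.im hij
      fin_cases i <;> fin_cases j <;> simp [pts, pp] at h1 ⊢
      all_goals
        first
          | exact absurd h1 hs1
          | exact absurd h1 hs2
          | exact absurd h1.symm hs1
          | exact absurd h1.symm hs2
    have him : ∀ j, 0 < (pts j).im := by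
      intro j
      fin_cases j <;> simp [pts, pp]
    obtain ⟨l, G, u, u', hG, hu, hu', hsum, hval⟩ := squares pts hinj him (4 * k) (pull P) f2 ζ hζ
      hf h0 hnn hdeg ![w, w, ((Real.sqrt c : ℝ) : ℂ)] (by
        intro j
        fin_cases j
        · exact hw
        · exact hw.trans hcond.1
        · change ((Real.sqrt c : ℝ) : ℂ) ^ 2 = (toC (pull P)).eval pp
          rw [hcp, ← Complex.ofReal_pow, Real.sq_sqrt hc])
    have hm : 4 * k * (2 * l + 1) = 8 * (k' * (2 * l + 1)) := by rw [hk']; ring
    have hm2 : k * (2 * l + 1) = 2 * (k' * (2 * l + 1)) := by rw [hk']; ring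
    have hGc : Cond G := by
      constructor
      · have e0 := hval 0
        have e1 := hval 1
        simp only [pts, Matrix.cons_val_zero, Matrix.cons_val_one] at e0 e1
        rw [e0, e1, hcond.1]
      · have e2 := hval 2
        simp only [pts, Matrix.cons_val] at e2
        rw [e2, hcp, ← Complex.ofReal_pow, ← Complex.ofReal_mul, Complex.ofReal_im]
    have hΔ : ∀ (y : Polynomial ℝ) (j : Fin 3),
        (toC ((∏ j, quad (pts j)) * y)).eval (pts j) = 0 := by
      intro y j
      rw [toC, Polynomial.map_mul, Polynomial.map_prod, Polynomial.eval_mul, Polynomial.eval_prod]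
      rw [Finset.prod_eq_zero (Finset.mem_univ j), zero_mul]
      have e1 := toC_quad (pts j)
      rw [toC] at e1
      rw [e1]
      simp
    have hΔc : ∀ y : Polynomial ℝ, Cond ((∏ j, quad (pts j)) * y) := by
      intro y
      constructor
      · have e0 := hΔ y 0
        have e1 := hΔ y 1
        simp only [pts, Matrix.cons_val_zero, Matrix.cons_val_one] at e0 e1
        simp only [pts]
        rw [e0, e1]
      · have e2 := hΔ y 2
        simp only [pts, Matrix.cons_val] at e2
        simp only [pts]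
        rw [e2, Complex.zero_im]
    obtain ⟨Q0, hQ0, hQ0'⟩ := surj (k' * (2 * l + 1)) _ G hG hm.le hGc
    obtain ⟨Q1, hQ1, hQ1'⟩ := surj (k' * (2 * l + 1)) _ _ hu hm.le (hΔc u)
    obtain ⟨Q2, hQ2, hQ2'⟩ := surj (k' * (2 * l + 1)) _ _ hu' hm.le (hΔc u')
    rw [← hm2] at hQ0 hQ1 hQ2
    refine hstub (2 * l + 1) ⟨l, rfl⟩ ⟨3, fun i => Ideal.Quotient.mkₐ ℝ curve (![Q0, Q1, Q2] i), ?_,
      ?_⟩
    · intro i
      refine mk_mem ?_
      fin_cases i
      · exact hQ0
      · exact hQ1
      · exact hQ2
    · rw [Fin.sum_univ_three, ← map_pow, ← map_pow, ← map_pow, ← map_pow, ← map_add, ← map_add]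
      refine mk_eq (m := 2 * (k * (2 * l + 1))) ?_ ?_ ?_
      · have h1 := hP.pow (2 * l + 1)
        rwa [show 2 * k * (2 * l + 1) = 2 * (k * (2 * l + 1)) by ring] at h1
      · have e : k * (2 * l + 1) * 2 = 2 * (k * (2 * l + 1)) := by ring
        have h1 := ((hQ0.pow 2).add (hQ1.pow 2)).add (hQ2.pow 2)
        rw [e] at h1
        exact h1
      · rw [map_pow, hsum]
        simp only [map_add, map_pow, Matrix.cons_val_zero, Matrix.cons_val_one, Matrix.cons_val]
        rw [hQ0', hQ1', hQ2']
  · -- only real roots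
    obtain ⟨h, hh⟩ : ∃ h : Polynomial ℝ, h = Polynomial.C d *
      (s.map fun a => Polynomial.X - Polynomial.C a).prod := ⟨_, rfl⟩
    rw [← hh] at hf
    have hdeg : h.natDegree ≤ 4 * k := by
      have h1 := natDegree_pull hP
      rw [hf, Polynomial.natDegree_pow] at h1
      omega
    have hhc : Cond h := by
      constructor
      · have h1 := hcond.1
        rw [hf, toC, Polynomial.map_pow, Polynomial.eval_pow, Polynomial.eval_pow] at h1
        rcases eq_or_ne s 0 with hs | hs
        · rw [hh, hs]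
          simp [toC]
        · have hd : d ≠ 0 := by
            rintro rfl
            rw [map_zero, zero_mul] at hh
            rw [hh] at hf
            exact h0 (by rw [hf]; simp)
          have h2 := (norm_prod_le s).2 hs
          have h3 : ‖(toC h).eval Complex.I‖ = ‖(toC h).eval (2 * Complex.I)‖ := by
            have h4 := congrArg norm h1
            rw [norm_pow, norm_pow] at h4
            exact (pow_left_inj₀ (norm_nonneg _) (norm_nonneg _) two_ne_zero).1 h4
          rw [hh, eval_toC_prod, eval_toC_prod, norm_mul, norm_mul] at h3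
          have h5 : ‖(d : ℂ)‖ ≠ 0 := by
            rw [norm_ne_zero_iff]
            exact_mod_cast hd
          exact absurd (mul_left_cancel₀ h5 h3) h2.ne
      · have h1 := hcp
        rw [hf, toC, Polynomial.map_pow, Polynomial.eval_pow] at h1
        have h2 := congrArg Complex.re h1
        have h3 := congrArg Complex.im h1
        rw [sq, Complex.mul_re, Complex.ofReal_re] at h2
        rw [sq, Complex.mul_im, Complex.ofReal_im] at h3
        by_contra hne
        have hne' : ((toC h).eval pp).im ≠ 0 := hne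
        have h4 : ((toC h).eval pp).re = 0 := by
          have h5 : ((toC h).eval pp).re * ((toC h).eval pp).im = 0 := by
            rw [toC]
            linarith
          exact (mul_eq_zero.1 h5).resolve_right hne'
        rw [toC] at h4 hne'
        rw [h4] at h2
        have h6 : 0 < (Polynomial.eval pp (Polynomial.map (algebraMap ℝ ℂ) h)).im ^ 2 := by
          positivity
        nlinarith
    obtain ⟨Q, hQ, hQ'⟩ := surj k' _ h hdeg (by omega) hhc
    have hk2 : 2 * k' = k := by omega
    rw [hk2] at hQ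
    refine hstub 1 odd_one ⟨1, fun _ => Ideal.Quotient.mkₐ ℝ curve Q, fun _ => mk_mem ?_, ?_⟩
    · rw [mul_one]
      exact hQ
    · rw [pow_one, Fin.sum_univ_one, ← map_pow]
      refine mk_eq (m := 2 * k) hP ?_ ?_
      · have h1 := hQ.pow 2
        rwa [mul_comm k 2] at h1
      · rw [map_pow, hQ', hf]

theorem result : ∃ I : Ideal (MvPolynomial (Fin (2 + 1)) ℝ), TotallyReal I ∧ I.IsPrime ∧
    ∀ k, 1 ≤ k → (StubbornDegree I k ↔ Odd k) := by
  refine ⟨curve, totallyReal_curve, curve_isPrime, fun k _ => ⟨fun h => ?_, stubborn_of_odd⟩⟩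
  rcases Nat.even_or_odd k with h1 | h1
  · exact absurd h (not_stubborn_of_even h1)
  · exact h1

end Pool.Agent.Results.MP_9ca6a9_ag.OddDegrees
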